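import Pool.Agent.Lib.H6V.D1
import Pool.Agent.Lib.H6V.D2

/-!
# H6D, chunk F2 (M), PURE MATHLIB (imports the Chebyshev bounds of H6V only): from one scale to density

PROOF. Given `Y` large put `X = (Y - 1) / K`, so `K X + 1 ≤ Y` and `Y ≤ K X + K + 1 ≤ 2 K X`-ish: `X ≥ Y/(2K)` for `Y ≥ 4 K`. By hypothesis
`δ X < #{p ≤ K X + 1, E p ∨ p ≤ M} log (K X + 1) ≤ (#{p ≤ Y, p prime, E p} + M + 1) log Y`, so
`#{p ≤ Y, E p} log Y ≥ δ Y/(2K) - (M+1) log Y ≥ δ Y/(4K)` for `Y` large (`log Y = o(Y)`), and `π(Y) log Y ≤ C Y` (`H6V.pi_upper`, chunk D1) gives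
`#{p ≤ Y, E p} ≥ δ/(4 K C) π(Y)` (divide by `log Y > 0`).
-/

namespace H6D

open Filter Topology

theorem dens_of_scale (E : ℕ → Prop) [DecidablePred E] (M K : ℕ) (hK : 1 ≤ K) (δ : ℝ)
    (hδ : 0 < δ) (X₀ : ℕ) (h : ∀ X : ℕ, X₀ ≤ X → δ * (X : ℝ) <
      (((Finset.range (K * X + 2)).filter fun p => p.Prime ∧ (E p ∨ p ≤ M)).card : ℝ) *
        Real.log ((K : ℝ) * X + 1)) :
    ∃ c : ℝ, 0 < c ∧ ∀ᶠ Y : ℕ in atTop, c * (Nat.primeCounting Y : ℝ) ≤
      (Set.ncard {p : ℕ | p ≤ Y ∧ p.Prime ∧ E p} : ℝ) := by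
  obtain ⟨C, hC, hpi⟩ := H6V.pi_upper
  have hKr : (1 : ℝ) ≤ (K : ℝ) := by exact_mod_cast hK
  have hK0 : (0 : ℝ) < (K : ℝ) := by linarith
  refine ⟨δ / (4 * K * C), by positivity, ?_⟩
  have hlo : ∀ᶠ Y : ℕ in atTop, ((M : ℝ) + 1) * Real.log (Y : ℝ) ≤ δ / (4 * K) * (Y : ℝ) := by
    have h1 := Real.isLittleO_log_id_atTop.comp_tendsto (tendsto_natCast_atTop_atTop (R := ℝ))
    have hc : 0 < δ / (4 * K) / ((M : ℝ) + 1) := by positivity
    have h2 := h1.bound hc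
    filter_upwards [h2] with Y hY
    simp only [Function.comp, id, Real.norm_eq_abs] at hY
    have h3 : Real.log (Y : ℝ) ≤ δ / (4 * K) / ((M : ℝ) + 1) * (Y : ℝ) := by
      have h4 := le_trans (le_abs_self _) hY
      rwa [abs_of_nonneg (Nat.cast_nonneg Y)] at h4
    have hM : (0 : ℝ) < (M : ℝ) + 1 := by positivity
    calc ((M : ℝ) + 1) * Real.log (Y : ℝ)
        ≤ ((M : ℝ) + 1) * (δ / (4 * K) / ((M : ℝ) + 1) * (Y : ℝ)) :=
          mul_le_mul_of_nonneg_left h3 hM.le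
      _ = δ / (4 * K) * (Y : ℝ) := by
          field_simp
  filter_upwards [hlo, eventually_ge_atTop (K * (X₀ + 1) + 2 * K + 2)] with Y hY hYge
  set N : Set ℕ := {p : ℕ | p ≤ Y ∧ p.Prime ∧ E p} with hN
  have hNfin : N.Finite := (Set.finite_Iic Y).subset (fun p hp => hp.1)
  have hY2 : 2 ≤ Y := by omega
  have hYr : (2 : ℝ) ≤ (Y : ℝ) := by exact_mod_cast hY2
  have hlog : 0 < Real.log (Y : ℝ) := Real.log_pos (by linarith)
  set X : ℕ := (Y - 1) / K with hX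
  have hKX : K * X ≤ Y - 1 := Nat.mul_div_le (Y - 1) K
  have hKX1 : K * X + 1 ≤ Y := by omega
  have hYK : Y - 1 < K * (X + 1) := by
    have := Nat.lt_mul_div_succ (Y - 1) (show 0 < K by omega)
    simpa [hX] using this
  have hYK' : Y ≤ K * X + K := by
    have h5 : K * (X + 1) = K * X + K := by ring
    omega
  have hX0 : X₀ ≤ X := by
    rw [hX, Nat.le_div_iff_mul_le (by omega)]
    have h6 : K * (X₀ + 1) = X₀ * K + K := by ring
    omega
  have hXr : (Y : ℝ) ≤ 2 * K * X := by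
    have h7 : (Y : ℝ) ≤ K * X + K := by exact_mod_cast hYK'
    have h8 : (K : ℝ) * (X₀ + 1) + 2 * K + 2 ≤ (Y : ℝ) := by exact_mod_cast hYge
    have h9 : (0 : ℝ) ≤ (K : ℝ) * (X₀ + 1) := by positivity
    nlinarith
  have hmain := h X hX0
  have hcard : (((Finset.range (K * X + 2)).filter fun p => p.Prime ∧ (E p ∨ p ≤ M)).card : ℝ) ≤
      (N.ncard : ℝ) + ((M : ℝ) + 1) := by
    have hsub : ((Finset.range (K * X + 2)).filter fun p => p.Prime ∧ (E p ∨ p ≤ M)) ⊆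
        hNfin.toFinset ∪ Finset.range (M + 1) := by
      intro p hp
      rw [Finset.mem_filter, Finset.mem_range] at hp
      rw [Finset.mem_union, Set.Finite.mem_toFinset, Finset.mem_range]
      obtain ⟨hp1, hp2, hp3⟩ := hp
      rcases hp3 with hp3 | hp3
      · left
        exact ⟨by omega, hp2, hp3⟩
      · right
        omega
    have h10 := (Finset.card_le_card hsub).trans (Finset.card_union_le _ _)
    rw [Finset.card_range, ← Set.ncard_eq_toFinset_card N hNfin] at h10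
    exact_mod_cast h10
  have hlog2 : Real.log ((K : ℝ) * X + 1) ≤ Real.log (Y : ℝ) := by
    apply Real.log_le_log
    · positivity
    · exact_mod_cast hKX1
  have hlog3 : 0 ≤ Real.log ((K : ℝ) * X + 1) := by
    apply Real.log_nonneg
    have : (0 : ℝ) ≤ (K : ℝ) * X := by positivity
    linarith
  have hNn : (0 : ℝ) ≤ (N.ncard : ℝ) + ((M : ℝ) + 1) := by positivity
  have h11 : δ * (X : ℝ) < ((N.ncard : ℝ) + ((M : ℝ) + 1)) * Real.log (Y : ℝ) :=
    lt_of_lt_of_le hmain (mul_le_mul hcard hlog2 hlog3 hNn)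
  have h12 : δ / (2 * K) * (Y : ℝ) ≤ δ * (X : ℝ) := by
    have h13 : δ / (2 * K) * (Y : ℝ) ≤ δ / (2 * K) * (2 * K * X) :=
      mul_le_mul_of_nonneg_left hXr (by positivity)
    have h14 : δ / (2 * K) * (2 * K * X) = δ * (X : ℝ) := by
      field_simp
    linarith
  have h15 : δ / (2 * K) * (Y : ℝ) = δ / (4 * K) * (Y : ℝ) + δ / (4 * K) * (Y : ℝ) := by
    field_simp
    ring
  have h16 : δ / (4 * K) * (Y : ℝ) ≤ (N.ncard : ℝ) * Real.log (Y : ℝ) := by
    have h17 : ((N.ncard : ℝ) + ((M : ℝ) + 1)) * Real.log (Y : ℝ) =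
      (N.ncard : ℝ) * Real.log (Y : ℝ) + ((M : ℝ) + 1) * Real.log (Y : ℝ) := by ring
    linarith
  have h18 := hpi Y
  have h19 : δ / (4 * K * C) * (Nat.primeCounting Y : ℝ) * Real.log (Y : ℝ) ≤
      (N.ncard : ℝ) * Real.log (Y : ℝ) := by
    have h20 : δ / (4 * K * C) * ((Nat.primeCounting Y : ℝ) * Real.log (Y : ℝ)) ≤
        δ / (4 * K * C) * (C * Y) := mul_le_mul_of_nonneg_left h18 (by positivity)
    have h21 : δ / (4 * K * C) * (C * Y) = δ / (4 * K) * (Y : ℝ) := by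
      field_simp
    calc δ / (4 * K * C) * (Nat.primeCounting Y : ℝ) * Real.log (Y : ℝ)
        = δ / (4 * K * C) * ((Nat.primeCounting Y : ℝ) * Real.log (Y : ℝ)) := by ring
      _ ≤ _ := h20
      _ = _ := h21
      _ ≤ _ := h16
  exact le_of_mul_le_mul_right h19 hlog

end H6D
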