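import Pool.Agent.Lib.H36D.Defs
import Pool.Agent.Lib.H94M.TG
import Pool.Agent.Lib.H53N.K
import Pool.Agent.Lib.H6V.K1

/-!
# H6D: common definitions (Theorem D: ordinary primes of positive lower density)

`h : Fin r → ℚ⟦q⟧` (for a newform: `h_σ = h(q^(σ+1))`, `h = Σ (a(n)/n) qⁿ`), `v = k - 2`,
`b p = a(p)/p`, `Exc` the exceptional primes (ordinary, or small, or dividing the level).
The definitions `Hm`, `Ix`, `gg`, `Ah` are in `H36D/Defs.lean`.
-/

namespace H6D

open PowerSeries H53M H94M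

/-- `f(q^p)`. -/
noncomputable def VV {R : Type*} [Semiring R] (p : ℕ) (f : PowerSeries R) : PowerSeries R :=
  PowerSeries.mk fun n => if p ∣ n then coeff (n / p) f else 0

/-- The data of Theorem D. -/
structure Dat (r v μ s : ℕ) (h : Fin r → PowerSeries ℚ) (b : ℕ → ℤ) (Exc : ℕ → Prop) : Prop where
  /-- no constant term -/
  zero : ∀ σ, coeff 0 (h σ) = 0
  /-- polynomial growth -/
  growth : ∃ (C : ℝ) (κ : ℕ), ∀ σ n, |((coeff n (h σ) : ℚ) : ℝ)| ≤ C * ((n : ℝ) + 1) ^ κ
  /-- the prime powers in the denominators -/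
  den : ∀ σ n p, p.Prime → p ^ padicValNat p (coeff n (h σ)).den ≤ n + 1
  /-- integrality outside of the exceptional primes -/
  int : ∀ σ n p, p.Prime → ¬ Exc p → ¬ p ∣ (coeff n (h σ)).den
  /-- small primes are exceptional -/
  big : ∀ p, p.Prime → ¬ Exc p → 5 < p
  /-- the index is positive -/
  mu_pos : 1 ≤ μ
  /-- the structure modulo `p` -/
  fam : ∀ (p : ℕ) [Fact p.Prime], ¬ Exc p →
    ∃ M : ℕ → Submodule (ZMod p) (PowerSeries (ZMod p)), MFam p μ s M ∧
      ∀ σ, redQ p (h σ) - (b p : ZMod p) • VV p (redQ p (h σ)) ∈ M (p * v + (p - 1))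
  /-- algebraic independence over the power series with integral coefficients -/
  ind : ∀ (S : Finset (Fin r → ℕ)) (P : (Fin r → ℕ) → PowerSeries ℤ), (∃ α ∈ S, P α ≠ 0) →
    ∑ α ∈ S, toQ (P α) * H36D.Hm h α ≠ 0

/-- The coefficients of `f(dz)`. -/
def ad (a : ℕ → ℤ) (d n : ℕ) : ℤ := if d ∣ n then a (n / d) else 0

end H6D
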