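import Pool.Agent.Lib.H6D.T1

/-!
# H6D, chunk T2 (S): the reduction of `θ^(p-2) f(dz)`

PROOF. `gp_coeff`: `KArr.gp` (Lib/H36H/KF.lean) for `karr b h`: the fibre of `n ≥ 1` is `{n}` (`c = b n`, `q2 = 1`, `nm = n`), the fibre of `0` is empty,
and `0^(p-2) = 0` for `p > 2` (compare `karr_hs` in Lib/H6V/K1.lean); then `redZ` is the coefficientwise cast.
`gp_mem`: `KArr.gp_MN1` (Lib/H53N/K.lean) for `karr (ad a d) _` and `ad_trans`, with `Fintype.card (Fin 1) = 1`, and the weight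
`1 * k + 2 * 1 - 4 + (p-1) * (2 * 1 + k - 3) = (k-2) + (p-1)(k-1) = p (k-2) + (p-1)` (`k ≥ 4`).
-/

namespace H6D

open H53M H94M H53N H36H H6V PowerSeries

theorem gp_coeff (b : ℕ → ℤ) (h : ∃ (C : ℝ) (K : ℕ), ∀ n, |(b n : ℝ)| ≤ C * ((n : ℝ) + 1) ^ K)
    (p : ℕ) (hp : 2 < p) (n : ℕ) :
    coeff n (redZ p ((karr b h).gp p)) = (b n : ZMod p) * (n : ZMod p) ^ (p - 2) := by
  unfold redZ KArr.gp
  rw [coeff_map, coeff_mk]
  by_cases hn : 0 < n
  · have h1 : (karr b h).fib n = {⟨n, hn⟩} := dif_pos hn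
    rw [h1, Finset.sum_singleton]
    change ((b n * (1 * ((n : ℕ) : ℤ) ^ (p - 2)) : ℤ) : ZMod p) = _
    push_cast
    rw [one_mul]
  · have h1 : (karr b h).fib n = ∅ := dif_neg hn
    have h2 : n = 0 := by omega
    rw [h1, Finset.sum_empty, h2, Nat.cast_zero, zero_pow (by omega), mul_zero, map_zero]

theorem gp_mem {N k : ℕ} (hk : 4 ≤ k) {a : ℕ → ℤ} (hF : Frm N k a) (d M : ℕ) [NeZero M]
    (hd : 1 ≤ d) (hM : N * d ∣ M) (p : ℕ) [Fact p.Prime] (hp : 5 < p) :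
    redZ p ((karr (ad a d) (ad_growth a d hF.growth)).gp p) ∈
      MN1 M p (p * (k - 2) + (p - 1)) := by
  have h1 := KArr.gp_MN1 (by omega : 3 ≤ k) (karr (ad a d) (ad_growth a d hF.growth))
    (ad_trans hF d M hd hM) p hp (by rw [Fintype.card_fin]; omega)
  have h2 : Fintype.card (Fin 1) * k + 2 * Fintype.card (Fin 1) - 4 +
      (p - 1) * (2 * Fintype.card (Fin 1) + k - 3) = p * (k - 2) + (p - 1) := by
    rw [Fintype.card_fin]
    obtain ⟨l, rfl⟩ : ∃ l, k = l + 4 := ⟨k - 4, by omega⟩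
    obtain ⟨q, rfl⟩ : ∃ q, p = q + 1 := ⟨p - 1, by omega⟩
    have e1 : 1 * (l + 4) + 2 * 1 - 4 = l + 2 := by omega
    have e2 : 2 * 1 + (l + 4) - 3 = l + 3 := by omega
    have e3 : l + 4 - 2 = l + 2 := by omega
    rw [e1, e2, e3, Nat.add_sub_cancel]
    ring
  rw [h2] at h1
  exact h1

end H6D
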