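import Mathlib

/-!
# H6D, chunk F1 (S/M), PURE MATHLIB: the numerics (r = 12)

PROOF. `K = C6 J^5`, `2 + K J^12 ≤ (2 + C6) J^17` for `J ≥ 1`, so the logarithm is `≤ log (2 + C6) + 17 log J`, and `log J ≤ 2 sqrt J` (or `Real.log_le_rpow_div`); the product is
`≤ C0 J^(-8) (log (2 + C6) + 34 sqrt J) (C6 + 2) J^5 * 2 J = const (log (2+C6) + 34 sqrt J) J^(-2) → 0`. Second part: `C0 J^(-8) ≤ J` as soon as `J ≥ C0`, `J ≥ 1`.
-/

namespace H6D

theorem numeric_J (C0 : ℝ) (hC0 : 1 ≤ C0) (C6 : ℕ) : ∃ J₀ : ℕ, ∀ J : ℕ, J₀ ≤ J →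
    C0 * ((J : ℝ) ^ 4 / (J : ℝ) ^ 12) * Real.log (2 + ((C6 * J ^ 5 : ℕ) : ℝ) * (J : ℝ) ^ 12) *
        (((C6 * J ^ 5 : ℕ) : ℝ) + 2) * ((J : ℝ) + 1) ≤ 1 ∧
      C0 * ((J : ℝ) ^ 4 / (J : ℝ) ^ 12) ≤ J := by
  obtain ⟨c, hc⟩ : ∃ c : ℝ, c = (C6 : ℝ) := ⟨_, rfl⟩
  have hc0 : 0 ≤ c := by rw [hc]; positivity
  obtain ⟨J₀, hJ₀⟩ := exists_nat_ge (2 * C0 * (c + 18) * (c + 2) + 1)
  refine ⟨J₀, fun J hJ => ?_⟩
  obtain ⟨x, hx⟩ : ∃ x : ℝ, x = (J : ℝ) := ⟨_, rfl⟩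
  have hxJ : 2 * C0 * (c + 18) * (c + 2) + 1 ≤ x := by
    rw [hx]
    exact hJ₀.trans (by exact_mod_cast hJ)
  have hpos : 0 ≤ 2 * C0 * (c + 18) * (c + 2) := by positivity
  have hx1 : 1 ≤ x := by linarith
  have hx0 : 0 < x := by linarith
  have hcast : ((C6 * J ^ 5 : ℕ) : ℝ) = c * x ^ 5 := by
    rw [hc, hx]
    push_cast
    ring
  rw [hcast, ← hx]
  have hdiv : x ^ 4 / x ^ 12 = 1 / x ^ 8 := by
    field_simp
  rw [hdiv]
  have hC0x : C0 ≤ x := by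
    have h1 : C0 ≤ 2 * C0 * (c + 18) * (c + 2) := by nlinarith [mul_nonneg hc0 hc0]
    linarith
  have hx8 : 1 ≤ x ^ 8 := one_le_pow₀ hx1
  constructor
  · have hlog : Real.log (2 + c * x ^ 5 * x ^ 12) ≤ (c + 18) * x := by
      have h1 : 2 + c * x ^ 5 * x ^ 12 ≤ (2 + c) * x ^ 17 := by
        have h2 : 1 ≤ x ^ 17 := one_le_pow₀ hx1
        have h3 : c * x ^ 5 * x ^ 12 = c * x ^ 17 := by ring
        rw [h3]
        nlinarith
      have h2 : 0 < 2 + c * x ^ 5 * x ^ 12 := by positivity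
      have h3 := Real.log_le_log h2 h1
      rw [Real.log_mul (by positivity) (by positivity), Real.log_pow] at h3
      have h4 := Real.log_le_sub_one_of_pos (show (0 : ℝ) < 2 + c by positivity)
      have h5 := Real.log_le_sub_one_of_pos hx0
      push_cast at h3
      nlinarith
    have hlog0 : 0 ≤ Real.log (2 + c * x ^ 5 * x ^ 12) := by
      refine Real.log_nonneg ?_
      have : 0 ≤ c * x ^ 5 * x ^ 12 := by positivity
      linarith
    have h5 : c * x ^ 5 + 2 ≤ (c + 2) * x ^ 5 := by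
      have : 1 ≤ x ^ 5 := one_le_pow₀ hx1
      nlinarith
    have h6 : x + 1 ≤ 2 * x := by linarith
    calc C0 * (1 / x ^ 8) * Real.log (2 + c * x ^ 5 * x ^ 12) * (c * x ^ 5 + 2) * (x + 1)
        ≤ C0 * (1 / x ^ 8) * ((c + 18) * x) * ((c + 2) * x ^ 5) * (2 * x) := by
          gcongr
      _ = (2 * C0 * (c + 18) * (c + 2)) / x := by
          field_simp
      _ ≤ 1 := by
          rw [div_le_one hx0]
          linarith
  · calc C0 * (1 / x ^ 8) ≤ C0 * 1 := by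
          refine mul_le_mul_of_nonneg_left ?_ (by linarith)
          rw [div_le_one (by positivity)]
          exact hx8
      _ ≤ x := by linarith

end H6D
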