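import Pool.Agent.Lib.H6D.Defs

/-!
# H6D, chunk F4 (S): growth and denominators

PROOF. `growth`, `zero`: fields of `Dat` (`C, κ` from `hD.growth`). `pos`, `dvd`: `DG_pos`, `DG_dvd` (Lib/H94M/TG.lean). `den`: `DG_den Exc 1 1 n (coeff n (h s))` with
`hD.den s n` (`1 * (n+1)^1 = n + 1`) and `hD.int s n`. `log_DG`: `log_DG_le E 1 1 n`.
-/

namespace H6D

open H53M H94M H36D PowerSeries

theorem hyp_of {r v μ s : ℕ} {h : Fin r → PowerSeries ℚ} {b : ℕ → ℤ} {Exc : ℕ → Prop}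
    [DecidablePred Exc] (hD : Dat r v μ s h b Exc) :
    ∃ (C : ℝ) (κ : ℕ), Hyp h C κ (DG Exc 1 1) := by
  obtain ⟨C, κ, hC⟩ := hD.growth
  refine ⟨C, κ, hC, hD.zero, DG_pos Exc 1 1, DG_dvd Exc 1 1, fun s n => ?_⟩
  refine DG_den Exc 1 1 n _ (fun p hp => ?_) (fun p hp hE => hD.int s n p hp hE)
  have h1 := hD.den s n p hp
  simpa using h1

theorem log_DG (E : ℕ → Prop) [DecidablePred E] (n : ℕ) :
    Real.log (DG E 1 1 n) ≤
      (((Finset.range (n + 2)).filter fun p => p.Prime ∧ E p).card : ℝ) *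
        Real.log ((n : ℝ) + 1) := by
  have h1 := log_DG_le E 1 1 n le_rfl
  simpa [add_assoc] using h1

end H6D
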