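import Pool.Agent.Lib.H6D.F1
import Pool.Agent.Lib.H6D.F4
import Pool.Agent.Lib.H36D.S5
import Pool.Agent.Lib.H95D.E4
import Pool.Agent.Lib.H94D.M5

/-!
# H6D, chunk F5 (L): one scale, from a zero estimate

`ZE h`: there is `C7` such that for arbitrarily large `J` there are a prime `q` and `B` with: for every `x` which is not divisible by `q` (on `Ix 12 J W`) there is
`n ≤ C7 J^13 W + B` with `gg h J W x n 0 0 ≠ 0`, i.e. the order of `A(h)` is at most `C7 J^13 W + B`.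

PROOF. `CT = μ (v + 2) + s`, `C, κ` from `hyp_of`, `C0` from `H36D.aux 12 _ C κ CT` (`1 ≤ CT` by `hD.mu_pos`),
`C6 = ⌈C7 C0⌉₊ + 1 + CT + 12`, `J₀` from `numeric_J C0 _ C6`. By `hze` choose `J ≥ max J₀ 1`, `q`, `B`; `K = C6 J^5 ≥ CT J`, `K ≥ 12`. `η, X₁` from `aux`;
`ε = C0 (J^4/J^12) log (2 + K J^12)`, `X₂` from `H95D.endgame_scale J K 1 _ ε` (`numeric_J`). `δ = min η (1/2)`, `X₀ = max` of `X₁, X₂, 6, B`.
Suppose for some `X ≥ X₀` that `#{p ≤ K X + 1, Exc p} log (K X + 1) ≤ δ X`. Then `log D(K X) ≤ η X` (`log_DG`, `n = K X`), `D = DG Exc 1 1`, and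
`#{p ≤ 12 X, Exc p} log X ≤ X/2` (`12 X ≤ K X + 1`, `log X ≤ log (K X + 1)`). `aux` at the prime `q` gives `W, x`; `W ≤ C0 J^4/J^12 X ≤ J X` (`numeric_J`).
`G n j l` := the integer `z` with `D(KX)^J gg h J W x n j l = z` (for `n ≤ K X`, `j ≤ K`; choose it, `0` elsewhere), `M = ⌊exp (ε X)⌋₊`
(`|z| ≤ exp (ε X)` and `z` is an integer, so `|z| ≤ M`; `1 ≤ M`, `log M ≤ ε X`).
Congruences: for `X < p ≤ 12 X` prime, `¬ Exc p`: `H94D.dat_congr` with `T = μ (v+2) J X + s` (`H94D.T_bound`), `hx`: `n + j X ≤ T ≤ CT J X`, `D := D(KX)^J`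
(`j p ≤ m ≤ K X`, `X < p` give `j ≤ K`; `m - j p ≤ K X`).
`G n 0 0 ≠ 0` for some `n ≤ K X`: `hze`: `n ≤ C7 J^13 W + B ≤ C7 J^13 C0 J^(-8) X + X ≤ (C7 C0 J^5 + 1) X ≤ K X` (and `D(KX) ≠ 0`).
`G n 0 l = 0` for `1 ≤ l`: `gg h J W x n 0 l = 0` since `coeff 0 (Hm h be) = 0` for `Σ be = l ≥ 1` because `coeff 0 (h s) = 0` (`hD.zero`). `endgame_scale` gives `False`.
-/

namespace H6D

open H53M H94M H36D H94D PowerSeries

/-- The zero estimate. -/
def ZE (h : Fin 12 → PowerSeries ℚ) : Prop :=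
  ∃ C7 : ℕ, ∀ J₀ : ℕ, ∃ J : ℕ, J₀ ≤ J ∧ ∃ q B : ℕ, q.Prime ∧
    ∀ (W : ℕ) (x : (Fin 12 → ℕ) × ℕ → ℤ), (∃ t ∈ Ix 12 J W, ¬ (q : ℤ) ∣ x t) →
      ∃ n : ℕ, n ≤ C7 * J ^ 13 * W + B ∧ gg h J W x n 0 0 ≠ 0

private theorem F5_zero {r : ℕ} (h : Fin r → PowerSeries ℚ) (h0 : ∀ σ, coeff 0 (h σ) = 0)
    (J W : ℕ) (x : (Fin r → ℕ) × ℕ → ℤ) (n l : ℕ) (hl : 1 ≤ l) : gg h J W x n 0 l = 0 := by
  unfold gg
  refine Finset.sum_eq_zero fun t _ => ?_
  have h1 : gc h W n 0 l t = 0 := by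
    unfold gc
    refine Finset.sum_eq_zero fun be hbe => ?_
    have hs : ∑ s, be s = l := (Finset.mem_filter.1 hbe).2
    have h2 : coeff 0 (Hm h be) = 0 := by
      obtain ⟨s, hs0⟩ : ∃ s, be s ≠ 0 := by
        by_contra hc
        push Not at hc
        have : ∑ s, be s = 0 := Finset.sum_eq_zero fun s _ => hc s
        omega
      unfold Hm
      rw [coeff_zero_eq_constantCoeff_apply, map_prod]
      refine Finset.prod_eq_zero (Finset.mem_univ s) ?_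
      rw [map_pow, ← coeff_zero_eq_constantCoeff_apply, h0 s, zero_pow hs0]
    rw [h2]
    ring
  rw [h1, mul_zero]

theorem scale {v μ s : ℕ} {h : Fin 12 → PowerSeries ℚ} {b : ℕ → ℤ} {Exc : ℕ → Prop}
    [DecidablePred Exc] (hD : Dat 12 v μ s h b Exc) (hze : ZE h) :
    ∃ (K : ℕ) (δ : ℝ) (X₀ : ℕ), 1 ≤ K ∧ 0 < δ ∧ ∀ X : ℕ, X₀ ≤ X → δ * (X : ℝ) <
      (((Finset.range (K * X + 2)).filter fun p : ℕ => p.Prime ∧ Exc p).card : ℝ) *
        Real.log ((K : ℝ) * X + 1) := by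
  obtain ⟨C, κ, hH⟩ := hyp_of hD
  obtain ⟨C7, hJ⟩ := hze
  obtain ⟨CT, hCT⟩ : ∃ CT, CT = μ * (v + 2) + s := ⟨_, rfl⟩
  have hCT1 : 1 ≤ CT := by
    have h1 : 1 ≤ μ * (v + 2) := Nat.mul_pos hD.mu_pos (by omega)
    omega
  obtain ⟨C0, hC0, hC⟩ := aux 12 (by norm_num) C κ CT hCT1
  obtain ⟨C6, hC6⟩ : ∃ C6 : ℕ, C6 = ⌈(C7 : ℝ) * C0⌉₊ + 1 + CT + 12 := ⟨_, rfl⟩
  obtain ⟨J₀, hnum⟩ := numeric_J C0 hC0 C6
  obtain ⟨J, hJJ, q, B, hq, hze'⟩ := hJ (max J₀ 1)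
  have hJ0 : J₀ ≤ J := le_trans (le_max_left _ _) hJJ
  have hJ1 : 1 ≤ J := le_trans (le_max_right _ _) hJJ
  obtain ⟨n1, n2⟩ := hnum J hJ0
  obtain ⟨K, hK⟩ : ∃ K, K = C6 * J ^ 5 := ⟨_, rfl⟩
  rw [← hK] at n1
  have hJ5 : 1 ≤ J ^ 5 := Nat.one_le_pow _ _ hJ1
  have hKC : C6 ≤ K := by
    rw [hK]
    exact Nat.le_mul_of_pos_right _ hJ5
  have hK12 : 12 ≤ K := by omega
  have hCTJ : CT * J ≤ K := by
    rw [hK]
    exact Nat.mul_le_mul (by omega) (Nat.le_self_pow (by norm_num) J)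
  obtain ⟨η, hη, X₁, h1⟩ := hC J K hJ1 hCTJ
  obtain ⟨ε, hε⟩ : ∃ ε : ℝ, ε = C0 * ((J : ℝ) ^ 4 / (J : ℝ) ^ 12) *
      Real.log (2 + (K : ℝ) * (J : ℝ) ^ 12) := ⟨_, rfl⟩
  obtain ⟨X₂, h2⟩ := H95D.endgame_scale J K 1 one_ne_zero ε (by rw [hε]; exact n1)
  obtain ⟨δ, hδ⟩ : ∃ δ : ℝ, δ = min η (1 / 2) := ⟨_, rfl⟩
  have hδ0 : 0 < δ := by
    rw [hδ]
    exact lt_min hη (by norm_num)
  refine ⟨K, δ, max (max X₁ X₂) (max 6 B), by omega, hδ0, fun X hX => ?_⟩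
  by_contra hcon
  rw [not_lt] at hcon
  have hX1 : X₁ ≤ X := le_trans (le_trans (le_max_left _ _) (le_max_left _ _)) hX
  have hX2 : X₂ ≤ X := le_trans (le_trans (le_max_right _ _) (le_max_left _ _)) hX
  have hX3 : 6 ≤ X := le_trans (le_trans (le_max_left _ _) (le_max_right _ _)) hX
  have hX4 : B ≤ X := le_trans (le_trans (le_max_right _ _) (le_max_right _ _)) hX
  have hX0 : (0 : ℝ) ≤ X := Nat.cast_nonneg X
  have hXr : (6 : ℝ) ≤ X := by exact_mod_cast hX3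
  have hKr : (12 : ℝ) ≤ K := by exact_mod_cast hK12
  obtain ⟨D, hDdef⟩ : ∃ D : ℕ → ℕ, D = DG Exc 1 1 := ⟨_, rfl⟩
  have hlogD : Real.log (D (K * X)) ≤ η * X := by
    rw [hDdef]
    refine (log_DG Exc (K * X)).trans ?_
    push_cast
    refine hcon.trans ?_
    exact mul_le_mul_of_nonneg_right (by rw [hδ]; exact min_le_left _ _) hX0
  have hcount : (((Finset.range (12 * X + 1)).filter fun p : ℕ => p.Prime ∧ Exc p).card : ℝ) *
      Real.log X ≤ X / 2 := by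
    have a1 : (((Finset.range (12 * X + 1)).filter fun p : ℕ => p.Prime ∧ Exc p).card : ℝ) ≤
        (((Finset.range (K * X + 2)).filter fun p : ℕ => p.Prime ∧ Exc p).card : ℝ) := by
      have a2 : 12 * X ≤ K * X := Nat.mul_le_mul_right _ hK12
      exact_mod_cast Finset.card_le_card (Finset.filter_subset_filter _
        (Finset.range_subset_range.2 (by omega)))
    have a3 : Real.log X ≤ Real.log ((K : ℝ) * X + 1) := by
      apply Real.log_le_log (by linarith)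
      nlinarith
    have a4 : 0 ≤ Real.log (X : ℝ) := Real.log_nonneg (by linarith)
    calc _ ≤ (((Finset.range (K * X + 2)).filter fun p : ℕ => p.Prime ∧ Exc p).card : ℝ) *
          Real.log ((K : ℝ) * X + 1) := mul_le_mul a1 a3 a4 (Nat.cast_nonneg _)
      _ ≤ δ * X := hcon
      _ ≤ 1 / 2 * X := mul_le_mul_of_nonneg_right (by rw [hδ]; exact min_le_right _ _) hX0
      _ = X / 2 := by ring
  obtain ⟨W, x, hW1, hWC, hxq, hx0, hxz⟩ := h1 h D (by rw [hDdef]; exact hH) q hq X hX1 hlogD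
  have hDpos : 0 < D (K * X) := by
    rw [hDdef]
    exact DG_pos Exc 1 1 _
  have hWJ : W ≤ J * X := by
    have a1 : (W : ℝ) ≤ ((J * X : ℕ) : ℝ) := by
      refine hWC.trans ?_
      push_cast
      exact mul_le_mul_of_nonneg_right n2 hX0
    exact_mod_cast a1
  -- the integers
  have hGex : ∃ G : ℕ → ℕ → ℕ → ℤ, ∀ n j l : ℕ, n ≤ K * X → j ≤ K →
      ((D (K * X) : ℚ)) ^ J * gg h J W x n j l = (G n j l : ℤ) ∧
        |(G n j l : ℝ)| ≤ Real.exp (ε * X) := by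
    have a1 : ∀ n j l : ℕ, ∃ z : ℤ, n ≤ K * X → j ≤ K →
        ((D (K * X) : ℚ)) ^ J * gg h J W x n j l = (z : ℤ) ∧ |(z : ℝ)| ≤ Real.exp (ε * X) := by
      intro n j l
      by_cases hn : n ≤ K * X
      · by_cases hj : j ≤ K
        · obtain ⟨z, hz1, hz2⟩ := hxz n j l hn hj
          refine ⟨z, fun _ _ => ⟨hz1, ?_⟩⟩
          rw [hε]
          exact hz2
        · exact ⟨0, fun _ h => absurd h hj⟩
      · exact ⟨0, fun h => absurd h hn⟩
    choose G hG using a1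
    exact ⟨G, fun n j l hn hj => hG n j l hn hj⟩
  obtain ⟨G, hG⟩ := hGex
  have hε0 : 0 ≤ ε := by
    rw [hε]
    refine mul_nonneg (mul_nonneg (by linarith) (by positivity)) (Real.log_nonneg ?_)
    have : (0 : ℝ) ≤ (K : ℝ) * (J : ℝ) ^ 12 := by positivity
    linarith
  have hexp1 : 1 ≤ Real.exp (ε * X) := Real.one_le_exp (mul_nonneg hε0 hX0)
  obtain ⟨M, hM⟩ : ∃ M : ℕ, M = ⌊Real.exp (ε * X)⌋₊ := ⟨_, rfl⟩
  have hM1 : 1 ≤ M := by
    rw [hM]
    exact Nat.le_floor (by simpa using hexp1)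
  have hlM : Real.log M ≤ ε * X := by
    have a1 : (M : ℝ) ≤ Real.exp (ε * X) := by
      rw [hM]
      exact Nat.floor_le (Real.exp_pos _).le
    have a2 : (0 : ℝ) < M := by exact_mod_cast hM1
    calc Real.log M ≤ Real.log (Real.exp (ε * X)) := Real.log_le_log a2 a1
      _ = ε * X := Real.log_exp _
  refine h2 X hX2 Exc (K * X) M G b hcount le_rfl hM1 hlM ?_ ?_ ?_ ?_
  · intro n hn j hj l _
    have a1 := (hG n j l hn hj).2
    have a2 : (G n j l).natAbs ≤ M := by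
      rw [hM]
      refine Nat.le_floor ?_
      rw [Nat.cast_natAbs]
      push_cast
      exact a1
    rw [Int.abs_eq_natAbs]
    exact_mod_cast a2
  · intro p hp hXp hp12 _ hEp m hm
    have hTb := T_bound μ v s J W X p hp12 hWJ
    refine dat_congr hD p hp hEp J W X (μ * (v + 2) * J * X + s) hXp.le hTb x ?_
      (((D (K * X)) ^ J : ℕ) : ℤ) G m ?_
    · intro n j l hnj
      refine hx0 n j l (hnj.trans ?_)
      have hJX : 1 ≤ J * X := Nat.mul_pos hJ1 (by omega)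
      calc μ * (v + 2) * J * X + s = μ * (v + 2) * (J * X) + s * 1 := by ring
        _ ≤ μ * (v + 2) * (J * X) + s * (J * X) := Nat.add_le_add_left (Nat.mul_le_mul_left _ hJX) _
        _ = CT * J * X := by rw [hCT]; ring
    · intro j l hjm _
      have hj : j ≤ K := by
        by_contra hc
        rw [not_le] at hc
        have a1 : (K + 1) * X ≤ j * p := Nat.mul_le_mul hc hXp.le
        have a2 : (K + 1) * X = K * X + X := by ring
        omega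
      have a3 := (hG (m - j * p) j l (by omega) hj).1
      rw [← a3]
      push_cast
      ring
  · obtain ⟨n, hn, hgn⟩ := hze' W x hxq
    have hnK : n ≤ K * X := by
      have hJr : (1 : ℝ) ≤ J := by exact_mod_cast hJ1
      have hJp : (0 : ℝ) < J := by linarith
      have a1 : (n : ℝ) ≤ (C7 : ℝ) * (J : ℝ) ^ 13 * W + B := by exact_mod_cast hn
      have a2 : (C7 : ℝ) * (J : ℝ) ^ 13 * W ≤ (C7 : ℝ) * C0 * (J : ℝ) ^ 5 * (J : ℝ) ^ 0 * X := by
        calc (C7 : ℝ) * (J : ℝ) ^ 13 * W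
            ≤ (C7 : ℝ) * (J : ℝ) ^ 13 * (C0 * ((J : ℝ) ^ 4 / (J : ℝ) ^ 12) * X) :=
              mul_le_mul_of_nonneg_left hWC (by positivity)
          _ = (C7 : ℝ) * C0 * (J : ℝ) ^ 5 * (J : ℝ) ^ 0 * X := by
              field_simp
      have a3 : (C7 : ℝ) * C0 + 1 ≤ C6 := by
        have a4 := Nat.le_ceil ((C7 : ℝ) * C0)
        rw [hC6]
        push_cast
        have : (0 : ℝ) ≤ CT := Nat.cast_nonneg _
        linarith
      have a5 : (B : ℝ) ≤ X := by exact_mod_cast hX4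
      have a6 : (1 : ℝ) ≤ (J : ℝ) ^ 5 := one_le_pow₀ hJr
      have a7 : (n : ℝ) ≤ ((K * X : ℕ) : ℝ) := by
        push_cast
        rw [hK]
        push_cast
        have a8 : (B : ℝ) ≤ (J : ℝ) ^ 5 * X := by nlinarith
        have a9 : ((C7 : ℝ) * C0 + 1) * ((J : ℝ) ^ 5 * X) ≤ C6 * ((J : ℝ) ^ 5 * X) :=
          mul_le_mul_of_nonneg_right a3 (by positivity)
        rw [pow_zero, mul_one] at a2
        nlinarith
      exact_mod_cast a7
    refine ⟨n, hnK, ?_⟩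
    have a1 := (hG n 0 0 hnK (Nat.zero_le _)).1
    intro hc
    rw [hc, Int.cast_zero] at a1
    rcases mul_eq_zero.1 a1 with a2 | a2
    · have a3 := (pow_eq_zero_iff (by omega : J ≠ 0)).1 a2
      have a4 : D (K * X) = 0 := by exact_mod_cast a3
      omega
    · exact hgn a2
  · intro n hn l hl1 _
    have a1 := (hG n 0 l hn (Nat.zero_le _)).1
    rw [F5_zero h hD.zero J W x n l hl1, mul_zero] at a1
    exact_mod_cast a1.symm

end H6D
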