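import Pool.Agent.Lib.H6D.F5
import Pool.Agent.Lib.H22Z.Z6
import Pool.Agent.Lib.H22Z.Z5

/-!
# H6D, chunk F6 (M): the zero estimate from the primes of slope one

`hZ` is supplied by helper22 (`H22Z.zero_Ah` for `r = 12`, all its hypotheses but `hQ` are given by `hD`; file Z7).
PROOF. `C7 = μ 2^12`. Given `J₀`: `p₁` from `hQ B`, with `B = 3 * H22Z.WW μ (v + 2) + 24 * μ`; by `hinf` choose a prime `p₀ > max (J₀ + 1) p₁` with `¬ Exc p₀`, `¬ (p₀ : ℤ) ∣ b p₀`.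
`J = p₀ - 1`, `q = p₀`, `B = μ (p₀^12 (J (p₀ v + (p₀ - 1)))) + s`. `hZ` gives `n ≤ μ (p₀^12 (12 W + J κ))/12 + s ≤ μ p₀^12 W + μ p₀^12 J κ + s`,
and `p₀^12 ≤ (2 J)^12 ≤ 2^12 J^13`; `gg h J W x n 0 0 = coeff n (Ah h J W x)` is `H36D.gg_zero` (Lib/H36D/S4.lean).
-/

namespace H6D

open H53M H94M H36D H94D PowerSeries

private theorem f6_num (μ s p W R : ℕ) (hp : 2 ≤ p) :
    μ * (p ^ 12 * (12 * W + R)) / 12 + s ≤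
      μ * 2 ^ 12 * (p - 1) ^ 13 * W + (μ * (p ^ 12 * R) + s) := by
  obtain ⟨j, rfl⟩ : ∃ j, p = j + 1 := ⟨p - 1, by omega⟩
  have hj : 1 ≤ j := by omega
  rw [Nat.add_sub_cancel]
  have h1 : (j + 1) ^ 12 ≤ 2 ^ 12 * j ^ 13 := by
    calc (j + 1) ^ 12 ≤ (2 * j) ^ 12 := Nat.pow_le_pow_left (by omega) 12
      _ = 2 ^ 12 * j ^ 12 := by rw [mul_pow]
      _ ≤ 2 ^ 12 * j ^ 13 :=
        Nat.mul_le_mul_left _ (Nat.pow_le_pow_right hj (by omega))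
  have h2 : μ * ((j + 1) ^ 12 * (12 * W + R)) / 12 ≤
      μ * 2 ^ 12 * j ^ 13 * W + μ * ((j + 1) ^ 12 * R) := by
    apply Nat.div_le_of_le_mul
    have h3 : μ * ((j + 1) ^ 12 * W) ≤ μ * (2 ^ 12 * j ^ 13 * W) :=
      Nat.mul_le_mul_left _ (Nat.mul_le_mul_right _ h1)
    have h4 : μ * ((j + 1) ^ 12 * (12 * W + R)) =
        12 * (μ * ((j + 1) ^ 12 * W)) + μ * ((j + 1) ^ 12 * R) := by ring
    have h5 : μ * 2 ^ 12 * j ^ 13 * W = μ * (2 ^ 12 * j ^ 13 * W) := by ring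
    rw [h4, h5]
    omega
  omega

theorem ze_I {v μ s : ℕ} {h : Fin 12 → PowerSeries ℚ} {b : ℕ → ℤ} {Exc : ℕ → Prop}
    (hD : Dat 12 v μ s h b Exc)
    (hinf : ∀ X₀ : ℕ, ∃ p : ℕ, X₀ < p ∧ p.Prime ∧ ¬ Exc p ∧ ¬ (p : ℤ) ∣ b p)
    (hQ : ∀ B : ℕ, ∃ p₁ : ℕ, ∀ (p : ℕ) [Fact p.Prime], p₁ < p → ¬ Exc p →
      ∀ Q : MvPolynomial (Fin 12 ⊕ Fin 2) (ZMod p), Q.totalDegree ≤ B →
        MvPolynomial.aeval (Sum.elim (fun σ : Fin 12 => redQ p (h σ))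
          ![redZ p dl, redZ p e4]) Q = 0 → Q = 0)
    (hZ : ∀ (p : ℕ) [Fact p.Prime], ¬ Exc p → (b p : ZMod p) ≠ 0 →
      (∀ Q : MvPolynomial (Fin 12 ⊕ Fin 2) (ZMod p), Q.totalDegree ≤
        3 * H22Z.WW μ (v + 2) + 24 * μ →
        MvPolynomial.aeval (Sum.elim (fun σ : Fin 12 => redQ p (h σ))
          ![redZ p dl, redZ p e4]) Q = 0 → Q = 0) →
      ∀ (W : ℕ) (x : (Fin 12 → ℕ) × ℕ → ℤ), (∃ t ∈ Ix 12 (p - 1) W, ¬ (p : ℤ) ∣ x t) →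
        ∃ n : ℕ, n ≤ μ * (p ^ 12 * (12 * W + (p - 1) * (p * v + (p - 1)))) / 12 + s ∧
          coeff n (Ah h (p - 1) W x) ≠ 0) : ZE h := by
  have _ := hD
  refine ⟨μ * 2 ^ 12, fun J₀ => ?_⟩
  obtain ⟨p₁, hp₁⟩ := hQ (3 * H22Z.WW μ (v + 2) + 24 * μ)
  obtain ⟨p, hpX, hp, hE, hb⟩ := hinf (max (J₀ + 1) p₁)
  haveI : Fact p.Prime := ⟨hp⟩
  have hp1 : p₁ < p := lt_of_le_of_lt (le_max_right _ _) hpX
  have hJ : J₀ + 1 < p := lt_of_le_of_lt (le_max_left _ _) hpX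
  have hb' : (b p : ZMod p) ≠ 0 := by
    rw [Ne, ZMod.intCast_zmod_eq_zero_iff_dvd]
    exact hb
  refine ⟨p - 1, by omega, p, μ * (p ^ 12 * ((p - 1) * (p * v + (p - 1)))) + s, hp,
    fun W x hx => ?_⟩
  obtain ⟨n, hn, hn0⟩ := hZ p hE hb' (fun Q hQd hQ0 => hp₁ p hp1 hE Q hQd hQ0) W x hx
  refine ⟨n, hn.trans ?_, ?_⟩
  · exact f6_num μ s p W _ hp.two_le
  · rw [gg_zero]
    exact hn0

end H6D
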