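import Pool.Agent.Lib.H6D.T3
import Pool.Agent.Lib.H6V.H1

/-!
# H6D, chunk T4 (M): `h(q^d) - b h(q^(dp))` modulo `p`

PROOF. Compare the coefficients of `qⁿ`. Write `H = VV d (hq a)`; the coefficient of `H` is `0` if `d ∤ n`, and `a m / m` if `n = d m` (`m ≥ 1`; `n = 0`: all terms
vanish, `0^(p-2) = 0`).
* `d ∤ n`: also `VV p` contributes `0` (if `p ∣ n` and `d ∣ n/p` then `d ∣ n`), and `ad a d n = 0`.
* `n = d m`, `p ∤ n`: the left side is the cast of `a m / m`, i.e. `a(m) m⁻¹`; the right side `d a(m) (d m)^(p-2) = a(m) m⁻¹`, since `x^(p-2) = x⁻¹` for `x ≠ 0` in `ZMod p`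
  (`ZMod.pow_card_sub_one_eq_one`).
* `n = d m`, `p ∣ n`: `p ∤ d` gives `m = p m'`, `n / p = d m'`. `a p = p β`, `β = a p / p`. `hH`: `a(p m') = a p a m' - [p ∣ m'] p^(k-1) a (m'/p)`, so in `ℚ`
  `a m / m = β (a m' / m') - [p ∣ m'] p^(k-3) (a (m'/p) / (m'/p))`. Cast to `ZMod p` (all three rational numbers have denominators prime to `p`: `vv_int` with `d = 1` or the
  same argument, `h1` from `H6V.rec_dvd` with `j = 1`, `χ = 1`): the last term is `0` since `k ≥ 4`; the right side is `0` because `(n : ZMod p) = 0`.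
  The casts: `Rat.cast_mul_of_ne_zero`, `Rat.cast_sub_of_ne_zero`, or the lemmas `cast_mul_pi`, `cast_sum_pi`, `pi_int` used in Lib/H36H/KF.lean.
`rec_int`: `H6V.rec_dvd a (fun _ => 1) p k 1` for `r ≥ 1`; `r = 0` trivial.
-/

namespace H6D

open H53M H94M H6V PowerSeries

theorem rec_int (a : ℕ → ℤ) (p k : ℕ) (hp : p.Prime) (hk : 4 ≤ k) (hd : (p : ℤ) ∣ a p)
    (hH : ∀ n, a (p * n) = a p * a n - (if p ∣ n then (p : ℤ) ^ (k - 1) * a (n / p) else 0))
    (n r : ℕ) (hn : p ^ r ∣ n) : (p : ℤ) ^ r ∣ a n := by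
  rcases Nat.eq_zero_or_pos r with h0 | h0
  · rw [h0, pow_zero]
    exact one_dvd _
  · have h2 := H6V.rec_dvd a (fun _ => 1) p k 1 hp le_rfl (by omega)
      (fun n => by rw [hH n, one_mul]) (by rw [pow_one]; exact hd) n r h0 hn
    have h3 : r + 1 - 1 = r := by omega
    rw [h3] at h2
    exact h2

/-- `x ^ (p - 2) x = 1` in `ZMod p`, `x ≠ 0`. -/
private theorem T4_pow (p : ℕ) [Fact p.Prime] (hp : 5 < p) (x : ZMod p) (hx : x ≠ 0) :
    x * x ^ (p - 2) = 1 := by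
  have h1 : x ^ (p - 1) = 1 := ZMod.pow_card_sub_one_eq_one hx
  have h2 : p - 1 = (p - 2) + 1 := by omega
  rw [h2, pow_succ'] at h1
  exact h1

/-- The coefficient `a m / m` modulo `p`, if `p` does not divide `m`. -/
private theorem T4_cast (a : ℕ → ℤ) (p : ℕ) [Fact p.Prime] (hp : 5 < p) (m : ℕ) (hm : ¬ p ∣ m) :
    ((((a m : ℚ) / (m : ℚ)) : ℚ) : ZMod p) = (a m : ZMod p) * (m : ZMod p) ^ (p - 2) := by
  have hm0 : (m : ZMod p) ≠ 0 := by
    intro h
    exact hm ((ZMod.natCast_eq_zero_iff m p).1 h)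
  have h1 : ((((a m : ℚ) / (m : ℚ)) : ℚ) : ZMod p) = ((a m : ℚ) : ZMod p) / ((m : ℚ) : ZMod p) := by
    apply Rat.cast_div_of_ne_zero
    · rw [Rat.den_intCast]
      simp
    · rw [Rat.num_natCast]
      simpa using hm0
  rw [h1, Rat.cast_intCast, Rat.cast_natCast, div_eq_mul_inv]
  congr 1
  exact (eq_inv_of_mul_eq_one_right (T4_pow p hp _ hm0)).symm

/-- The coefficient at `p m` modulo `p`. -/
private theorem T4_step (a : ℕ → ℤ) (p k : ℕ) [Fact p.Prime] (hk : 4 ≤ k)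
    (hd : (p : ℤ) ∣ a p)
    (hH : ∀ n, a (p * n) = a p * a n - (if p ∣ n then (p : ℤ) ^ (k - 1) * a (n / p) else 0))
    (m : ℕ) :
    ((((a (p * m) : ℚ) / ((p * m : ℕ) : ℚ)) : ℚ) : ZMod p) =
      ((a p / p : ℤ) : ZMod p) * ((((a m : ℚ) / (m : ℚ)) : ℚ) : ZMod p) := by
  have hpp : p.Prime := Fact.out
  rcases Nat.eq_zero_or_pos m with h0 | h0
  · subst h0
    simp
  have hden : ∀ n : ℕ, (((((a n : ℚ) / (n : ℚ)) : ℚ)).den : ZMod p) ≠ 0 := by
    intro n h
    have h1 := vv_int a p hpp (rec_int a p k hpp hk hd hH) 1 n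
    apply h1
    have h2 : coeff n (VV 1 (hq a)) = (a n : ℚ) / (n : ℚ) := by
      rw [VV, coeff_mk, if_pos (one_dvd n), Nat.div_one, hq, coeff_mk]
    rw [h2]
    exact (ZMod.natCast_eq_zero_iff _ p).1 h
  obtain ⟨β, hβ⟩ := hd
  have hp0 : (p : ℤ) ≠ 0 := by exact_mod_cast hpp.ne_zero
  have hβ' : a p / (p : ℤ) = β := by
    rw [hβ]
    exact Int.mul_ediv_cancel_left β hp0
  have hpQ : (p : ℚ) ≠ 0 := by exact_mod_cast hpp.ne_zero
  have hmQ : (m : ℚ) ≠ 0 := by exact_mod_cast h0.ne'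
  rw [hβ']
  have hβden : (((β : ℚ)).den : ZMod p) ≠ 0 := by
    rw [Rat.den_intCast]
    simp
  by_cases hpm : p ∣ m
  · obtain ⟨m', rfl⟩ := hpm
    have hm' : 0 < m' := by
      rcases Nat.eq_zero_or_pos m' with h3 | h3
      · subst h3
        simp at h0
      · exact h3
    have hm'Q : (m' : ℚ) ≠ 0 := by exact_mod_cast hm'.ne'
    have e1 : ((a (p * (p * m')) : ℚ)) / ((p * (p * m') : ℕ) : ℚ) =
        (β : ℚ) * ((a (p * m') : ℚ) / ((p * m' : ℕ) : ℚ)) -
          ((p : ℤ) ^ (k - 3) : ℤ) * ((a m' : ℚ) / (m' : ℚ)) := by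
      rw [hH (p * m'), if_pos (dvd_mul_right p m'), Nat.mul_div_cancel_left _ hpp.pos, hβ]
      have e2 : k - 1 = (k - 3) + 2 := by omega
      rw [e2]
      push_cast
      field_simp
      ring
    rw [e1]
    have hpden : (((((p : ℤ) ^ (k - 3) : ℤ)) : ℚ).den : ZMod p) ≠ 0 := by
      rw [Rat.den_intCast]
      simp
    have hx : ((((β : ℚ) * ((a (p * m') : ℚ) / ((p * m' : ℕ) : ℚ)))).den : ZMod p) ≠ 0 := by
      intro h
      have h5 := (ZMod.natCast_eq_zero_iff _ p).1 h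
      have h6 := h5.trans (Rat.mul_den_dvd (β : ℚ) ((a (p * m') : ℚ) / ((p * m' : ℕ) : ℚ)))
      rcases hpp.dvd_mul.1 h6 with h7 | h7
      · exact hβden ((ZMod.natCast_eq_zero_iff _ p).2 h7)
      · exact hden (p * m') ((ZMod.natCast_eq_zero_iff _ p).2 h7)
    have hy : (((((p : ℤ) ^ (k - 3) : ℤ) * ((a m' : ℚ) / (m' : ℚ)) : ℚ)).den : ZMod p) ≠ 0 := by
      intro h
      have h5 := (ZMod.natCast_eq_zero_iff _ p).1 h
      have h6 := h5.trans (Rat.mul_den_dvd ((((p : ℤ) ^ (k - 3) : ℤ)) : ℚ) ((a m' : ℚ) / (m' : ℚ)))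
      rcases hpp.dvd_mul.1 h6 with h7 | h7
      · exact hpden ((ZMod.natCast_eq_zero_iff _ p).2 h7)
      · exact hden m' ((ZMod.natCast_eq_zero_iff _ p).2 h7)
    rw [Rat.cast_sub_of_ne_zero hx hy, Rat.cast_mul_of_ne_zero hβden (hden (p * m')),
      Rat.cast_mul_of_ne_zero hpden (hden m'), Rat.cast_intCast, Rat.cast_intCast]
    have e3 : (((p : ℤ) ^ (k - 3) : ℤ) : ZMod p) = 0 := by
      push_cast
      rw [ZMod.natCast_self, zero_pow (by omega)]
    rw [e3, zero_mul, sub_zero]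
  · have e1 : ((a (p * m) : ℚ)) / ((p * m : ℕ) : ℚ) = (β : ℚ) * ((a m : ℚ) / (m : ℚ)) := by
      rw [hH m, if_neg hpm, hβ, sub_zero]
      push_cast
      field_simp
    rw [e1, Rat.cast_mul_of_ne_zero hβden (hden m), Rat.cast_intCast]

theorem vv_sub (a : ℕ → ℤ) (p k : ℕ) [Fact p.Prime] (hp : 5 < p) (hk : 4 ≤ k)
    (hd : (p : ℤ) ∣ a p)
    (hH : ∀ n, a (p * n) = a p * a n - (if p ∣ n then (p : ℤ) ^ (k - 1) * a (n / p) else 0))
    (d : ℕ) (hd0 : ¬ p ∣ d) (n : ℕ) :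
    coeff n (redQ p (VV d (hq a)) - ((a p / p : ℤ) : ZMod p) • VV p (redQ p (VV d (hq a)))) =
      (d : ZMod p) * ((ad a d n : ZMod p) * (n : ZMod p) ^ (p - 2)) := by
  have hpp : p.Prime := Fact.out
  have hdpos : 0 < d := by
    rcases Nat.eq_zero_or_pos d with h | h
    · exact absurd (h ▸ dvd_zero p) hd0
    · exact h
  have hco : ∀ j : ℕ, coeff j (redQ p (VV d (hq a))) =
      if d ∣ j then ((((a (j / d) : ℚ) / ((j / d : ℕ) : ℚ)) : ℚ) : ZMod p) else 0 := by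
    intro j
    rw [redQ, coeff_mk, VV, coeff_mk]
    by_cases h : d ∣ j
    · rw [if_pos h, if_pos h, hq, coeff_mk]
    · rw [if_neg h, if_neg h, Rat.cast_zero]
  have hV : coeff n (VV p (redQ p (VV d (hq a)))) =
      if p ∣ n then coeff (n / p) (redQ p (VV d (hq a))) else 0 := by
    rw [VV, coeff_mk]
  rw [map_sub, coeff_smul, smul_eq_mul, hV]
  by_cases hdn : d ∣ n
  · obtain ⟨m, rfl⟩ := hdn
    have hdm : d * m / d = m := Nat.mul_div_cancel_left m hdpos
    rw [hco (d * m), if_pos (dvd_mul_right d m), hdm, ad, if_pos (dvd_mul_right d m), hdm]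
    by_cases hpn : p ∣ d * m
    · have hpm : p ∣ m := (hpp.dvd_mul.1 hpn).resolve_left hd0
      obtain ⟨m', rfl⟩ := hpm
      have e1 : d * (p * m') / p = d * m' := by
        have : d * (p * m') = p * (d * m') := by ring
        rw [this]
        exact Nat.mul_div_cancel_left _ hpp.pos
      rw [if_pos hpn, e1, hco (d * m'), if_pos (dvd_mul_right d m'),
        Nat.mul_div_cancel_left m' hdpos, T4_step a p k hk hd hH m', sub_self]
      have e2 : ((d * (p * m') : ℕ) : ZMod p) = 0 := by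
        rw [ZMod.natCast_eq_zero_iff]
        exact hpn
      rw [e2, zero_pow (by omega), mul_zero, mul_zero]
    · have hpm : ¬ p ∣ m := fun h => hpn (Dvd.dvd.mul_left h d)
      rw [if_neg hpn, mul_zero, sub_zero, T4_cast a p hp m hpm]
      have hd' : (d : ZMod p) ≠ 0 := fun h => hd0 ((ZMod.natCast_eq_zero_iff d p).1 h)
      have e1 := T4_pow p hp (d : ZMod p) hd'
      push_cast
      rw [mul_pow]
      calc (a m : ZMod p) * (m : ZMod p) ^ (p - 2)
          = ((d : ZMod p) * (d : ZMod p) ^ (p - 2)) * ((a m : ZMod p) * (m : ZMod p) ^ (p - 2)) := by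
            rw [e1, one_mul]
        _ = _ := by ring
  · rw [hco n, if_neg hdn, ad, if_neg hdn]
    have e1 : (if p ∣ n then coeff (n / p) (redQ p (VV d (hq a))) else 0) = 0 := by
      by_cases hpn : p ∣ n
      · rw [if_pos hpn, hco (n / p), if_neg]
        intro h
        apply hdn
        obtain ⟨c, hc⟩ := hpn
        subst hc
        rw [Nat.mul_div_cancel_left c hpp.pos] at h
        exact Dvd.dvd.mul_left h p
      · rw [if_neg hpn]
    rw [e1, Int.cast_zero, zero_mul, mul_zero, mul_zero, sub_zero]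

end H6D
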