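import Pool.Agent.Lib.H94M.Fin
import Pool.Agent.Lib.H6V.H1

/-!
# H6D, chunk T5 (S/M): infinitely many ordinary primes

PROOF. By contradiction: let `X₀` be such that every prime `l > X₀` with `l ∤ N` satisfies `l ∣ a l`. Then by `H6V.rec_dvd a (fun _ => 1) l k 1` (`χ = 1`, `l^(r+1-1) ∣ a n`)
`l^r ∣ n` implies `l^r ∣ a n` for these `l` (`r = 0` trivial), so the set `{p | ∃ n r, p^r ∣ n ∧ ¬ p^r ∣ a n}` contains only primes `≤ max X₀ N`: it is `LO`
(`LO_fin` in Lib/H94M/TR.lean with `T = fun _ => False`, which is `LO` because the set is empty), contradicting `thmT_of stP N k hk f a ha` (Lib/H94M/T0.lean; `stP` is in the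
file imported by Lib/H94M/Fin.lean; `a 1 = 1 ≠ 0`).
-/

namespace H6D

open H53M H94M UpperHalfPlane

theorem inf_ord (N k : ℕ) (hN : N ≠ 0) (hk : 4 ≤ k) (a : ℕ → ℤ) (f : CuspForm (G0 N) (k : ℤ))
    (ha : ∀ n, PowerSeries.coeff n (qExpansion 1 (f : ℍ → ℂ)) = (a n : ℂ)) (h1 : a 1 = 1)
    (hH : ∀ p : ℕ, p.Prime → ¬ p ∣ N → ∀ n,
      a (p * n) = a p * a n - (if p ∣ n then (p : ℤ) ^ (k - 1) * a (n / p) else 0)) (X₀ : ℕ) :
    ∃ l : ℕ, X₀ < l ∧ l.Prime ∧ ¬ l ∣ N ∧ ¬ (l : ℤ) ∣ a l := by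
  by_contra hc
  push Not at hc
  have hN' : NeZero N := ⟨hN⟩
  have h1' : a 1 ≠ 0 := by
    rw [h1]
    exact one_ne_zero
  refine thmT N k hk f a ha h1' ?_
  refine LO_fin (T := fun _ => False) (max X₀ N) (fun p hp hM hS => ?_) ?_
  · have hpX : X₀ < p := (le_max_left _ _).trans_lt hM
    have hpN : ¬ p ∣ N := fun h =>
      absurd (Nat.le_of_dvd (Nat.pos_of_ne_zero hN) h) (not_le.2 ((le_max_right _ _).trans_lt hM))
    have hd := hc p hpX hp hpN
    obtain ⟨n, r, hr, hna⟩ := hS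
    exfalso
    apply hna
    rcases Nat.eq_zero_or_pos r with h0 | h0
    · rw [h0, pow_zero]
      exact one_dvd _
    · have h2 := H6V.rec_dvd a (fun _ => 1) p k 1 hp le_rfl (by omega)
        (fun n => by rw [hH p hp hpN n, one_mul]) (by rw [pow_one]; exact hd) n r h0 hr
      have h3 : r + 1 - 1 = r := by omega
      rw [h3] at h2
      exact h2
  · intro ε hε
    refine ⟨0, fun X _ => ?_⟩
    have h2 : {p : ℕ | p ≤ X ∧ p.Prime ∧ False} = ∅ := by
      ext p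
      simp
    rw [h2, Set.ncard_empty, Nat.cast_zero, zero_mul]
    positivity

end H6D
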