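import Pool.Agent.Lib.H53N.Q
import Pool.Agent.Lib.H6V.M2

/-!
# H6D, chunk T6 (S): a cusp form on `Γ₀(N)` is a cusp form on `Γ₁(N)`

PROOF. `Gm1 N ≤ G0 N` (`CongruenceSubgroup.Gamma1_in_Gamma0` under the map to `GL(2, ℝ)`, cf. `G0_mul_le` in Lib/H94M/T0.lean), restriction of the cusp form as
`resCusp` there (with `Gm1 N` in place of `G0 M`), the function is the same, so `H6V.frm_of_cusp` applies.
-/

namespace H6D

open H53M H94M H53N H6V UpperHalfPlane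

private theorem T6_le (N : ℕ) : Gm1 N ≤ G0 N := by
  rintro g ⟨γ, hγ, rfl⟩
  exact ⟨γ, CongruenceSubgroup.Gamma1_in_Gamma0 N hγ, rfl⟩

private noncomputable def T6_res {N : ℕ} {k : ℤ} (F : CuspForm (G0 N) k) : CuspForm (Gm1 N) k where
  toFun := F
  slash_action_eq' γ hγ := F.slash_action_eq' γ (T6_le N hγ)
  holo' := F.holo'
  zero_at_cusps' hc := F.zero_at_cusps' (hc.mono (T6_le N))

theorem frm_of_G0 (N k : ℕ) (hN : N ≠ 0) (hk : 4 ≤ k) (f : CuspForm (G0 N) (k : ℤ)) (a : ℕ → ℤ)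
    (ha : ∀ n, PowerSeries.coeff n (qExpansion 1 (f : ℍ → ℂ)) = (a n : ℂ)) (h1 : a 1 ≠ 0) :
    Frm N k a :=
  frm_of_cusp N k hN hk (T6_res f) a ha h1

end H6D
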