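import Pool.Agent.Lib.H6D.T2
import Pool.Agent.Lib.H6D.T4
import Pool.Agent.Lib.H6D.T5
import Pool.Agent.Lib.H6D.T6

/-!
# H6D, chunk T7 (S/M): the data of a newform on `Γ₀(N)` with rational coefficients

`hind` is supplied by part I. PROOF. `hF := frm_of_G0 ..`. `M := N * r!`, `d = σ + 1 ≤ r` divides `r!` (`Nat.dvd_factorial`), so `N * d ∣ M`. A prime `p` which is not exceptional is
`> N + r + 5`, divides `a p`, hence `p > 5`, `p ∤ N` (`Nat.le_of_dvd`), `p ∤ d` (`0 < d < p`), and `rec_int` applies. `zero, growth, den, int`: chunk T3.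
`fam`: `M_w = MN1 M p w`, `mfam_MN1 M p` (Lib/H53N/Q.lean: index `12 * (mu1 M + 1)`, shift `0`; note that it is stated for `fun w => MN1 M p w`), and
`redQ p (VV d (hq a)) - b • VV p (..) = (d : ZMod p) • redZ p (gp)` by `vv_sub`, `gp_coeff` (coefficientwise, `ext n`, `coeff_smul`), then `Submodule.smul_mem` and `gp_mem`.
-/

namespace H6D

open H53M H94M H53N H36H H6V PowerSeries UpperHalfPlane

private theorem T7_exc {N r : ℕ} (hN : N ≠ 0) {a : ℕ → ℤ} {p : ℕ}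
    (hE : ¬ (¬ (p : ℤ) ∣ a p ∨ p ≤ N + r + 5)) :
    (p : ℤ) ∣ a p ∧ N + r + 5 < p ∧ ¬ p ∣ N := by
  rw [not_or, not_not, not_le] at hE
  refine ⟨hE.1, hE.2, fun h => ?_⟩
  have h1 := Nat.le_of_dvd (Nat.pos_of_ne_zero hN) h
  have h2 := hE.2
  omega

theorem dat_of (N k r : ℕ) (hN : N ≠ 0) (hk : 4 ≤ k) (a : ℕ → ℤ) (f : CuspForm (G0 N) (k : ℤ))
    (ha : ∀ n, PowerSeries.coeff n (qExpansion 1 (f : ℍ → ℂ)) = (a n : ℂ)) (h1 : a 1 = 1)
    (hH : ∀ p : ℕ, p.Prime → ¬ p ∣ N → ∀ n,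
      a (p * n) = a p * a n - (if p ∣ n then (p : ℤ) ^ (k - 1) * a (n / p) else 0))
    (hind : ∀ (S : Finset (Fin r → ℕ)) (P : (Fin r → ℕ) → PowerSeries ℤ), (∃ α ∈ S, P α ≠ 0) →
      ∑ α ∈ S, toQ (P α) * H36D.Hm (fun σ : Fin r => VV ((σ : ℕ) + 1) (hq a)) α ≠ 0) :
    Dat r (k - 2) (12 * (mu1 (N * r.factorial) + 1)) 0
      (fun σ : Fin r => VV ((σ : ℕ) + 1) (hq a)) (fun p => a p / p)
      (fun p => ¬ (p : ℤ) ∣ a p ∨ p ≤ N + r + 5) := by
  have hF : Frm N k a := frm_of_G0 N k hN hk f a ha (by rw [h1]; norm_num)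
  haveI : NeZero (N * r.factorial) := ⟨mul_ne_zero hN (Nat.factorial_ne_zero r)⟩
  refine ⟨fun σ => vv_zero a _, ?_, fun σ n p hp => vv_den a _ n p hp, ?_, ?_, ?_, ?_, hind⟩
  · obtain ⟨C, K, h⟩ := hF.growth
    exact ⟨C, K, fun σ n => vv_growth h _ n⟩
  · intro σ n p hp hE
    obtain ⟨hd, _, hpN⟩ := T7_exc hN hE
    exact vv_int a p hp (fun n r hr => rec_int a p k hp hk hd (hH p hp hpN) n r hr) _ n
  · intro p _ hE
    obtain ⟨_, hb, _⟩ := T7_exc hN hE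
    omega
  · exact Nat.one_le_iff_ne_zero.2 (by positivity)
  · intro p hpf hE
    obtain ⟨hd, hb, hpN⟩ := T7_exc hN hE
    refine ⟨fun w => MN1 (N * r.factorial) p w, mfam_MN1 (N * r.factorial) p, fun σ => ?_⟩
    have hσ : (σ : ℕ) + 1 ≤ r := σ.2
    have hd0 : ¬ p ∣ (σ : ℕ) + 1 := fun h => by
      have := Nat.le_of_dvd (Nat.succ_pos _) h
      omega
    have hM : N * ((σ : ℕ) + 1) ∣ N * r.factorial :=
      mul_dvd_mul_left N (Nat.dvd_factorial (Nat.succ_pos _) hσ)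
    have e : redQ p (VV ((σ : ℕ) + 1) (hq a)) - ((a p / p : ℤ) : ZMod p) •
          VV p (redQ p (VV ((σ : ℕ) + 1) (hq a))) =
        (((σ : ℕ) + 1 : ℕ) : ZMod p) •
          redZ p ((karr (ad a ((σ : ℕ) + 1)) (ad_growth a ((σ : ℕ) + 1) hF.growth)).gp p) := by
      ext n
      rw [vv_sub a p k (by omega) hk hd (hH p hpf.out hpN) ((σ : ℕ) + 1) hd0 n, coeff_smul,
        gp_coeff _ _ p (by omega) n, smul_eq_mul]
    rw [e]
    exact Submodule.smul_mem _ _ (gp_mem hk hF _ _ (Nat.succ_pos _) hM p (by omega))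

end H6D
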