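import Pool.Agent.Lib.H6D.F2
import Pool.Agent.Lib.H6D.F6
import Pool.Agent.Lib.H6D.T7

/-!
# H6D, chunk F7 (S/M): Theorem D from the zero estimate

PROOF. `hD := dat_of N k 12 ..` with `h_σ = VV (σ + 1) (hq a)`, `Exc p : ¬ p ∣ a p ∨ p ≤ N + 12 + 5`. `scale hD hze` gives `K, δ, X₀`; `dens_of_scale (fun p => ¬ (p : ℤ) ∣ a p) (N + 17) K`.
-/

namespace H6D

open H53M H94M H36D H94D H6V PowerSeries UpperHalfPlane Filter Topology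

theorem density_of (N k : ℕ) (hN : N ≠ 0) (hk : 4 ≤ k) (a : ℕ → ℤ) (f : CuspForm (G0 N) (k : ℤ))
    (ha : ∀ n, PowerSeries.coeff n (qExpansion 1 (f : ℍ → ℂ)) = (a n : ℂ)) (h1 : a 1 = 1)
    (hH : ∀ p : ℕ, p.Prime → ¬ p ∣ N → ∀ n,
      a (p * n) = a p * a n - (if p ∣ n then (p : ℤ) ^ (k - 1) * a (n / p) else 0))
    (hind : ∀ (S : Finset (Fin 12 → ℕ)) (P : (Fin 12 → ℕ) → PowerSeries ℤ), (∃ α ∈ S, P α ≠ 0) →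
      ∑ α ∈ S, toQ (P α) * H36D.Hm (fun σ : Fin 12 => VV ((σ : ℕ) + 1) (hq a)) α ≠ 0)
    (hze : ZE (fun σ : Fin 12 => VV ((σ : ℕ) + 1) (hq a))) :
    ∃ c : ℝ, 0 < c ∧ ∀ᶠ Y : ℕ in atTop, c * (Nat.primeCounting Y : ℝ) ≤
      (Set.ncard {p : ℕ | p ≤ Y ∧ p.Prime ∧ ¬ (p : ℤ) ∣ a p} : ℝ) := by
  have hD := dat_of N k 12 hN hk a f ha h1 hH hind
  obtain ⟨K, δ, X₀, hK, hδ, h⟩ := scale hD hze
  exact dens_of_scale (fun p : ℕ => ¬ (p : ℤ) ∣ a p) (N + 12 + 5) K hK δ hδ X₀ h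

end H6D
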