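import Pool.Agent.Lib.H6D.F7
import Pool.Agent.Lib.H22Z.Z7
import Pool.Agent.Lib.H33I.I5
import Pool.Agent.Lib.H53D.I3
import Pool.Agent.Lib.H18G.KO4

/-!
# H6D, G1: Theorem D, case (I): infinitely many primes of slope exactly one
-/

namespace H6D

open H53M H94M H36D H94D H6V PowerSeries UpperHalfPlane Filter Topology

/-- The independence of the series `h(q), ..., h(q^12)`. -/
theorem hind_newform (N k : ℕ) (hN : N ≠ 0) (hk : 4 ≤ k) (a : ℕ → ℤ)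
    (f : CuspForm (G0 N) (k : ℤ))
    (ha : ∀ n, PowerSeries.coeff n (qExpansion 1 (f : ℍ → ℂ)) = (a n : ℂ)) (h1 : a 1 = 1)
    (hH : ∀ p : ℕ, p.Prime → ¬ p ∣ N → ∀ n,
      a (p * n) = a p * a n - (if p ∣ n then (p : ℤ) ^ (k - 1) * a (n / p) else 0))
    (S : Finset (Fin 12 → ℕ)) (P : (Fin 12 → ℕ) → PowerSeries ℤ) (hP : ∃ α ∈ S, P α ≠ 0) :
    ∑ α ∈ S, toQ (P α) * H36D.Hm (fun σ : Fin 12 => VV ((σ : ℕ) + 1) (hq a)) α ≠ 0 := by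
  refine H18G.hind_of a (fun X₀ => ?_) 12 S P hP
  obtain ⟨l, h2, h3, _, h4⟩ := inf_ord N k hN hk a f ha h1 hH X₀
  exact ⟨l, h2, h3, h4⟩

/-- **Theorem D, case (I).** -/
theorem density_I (N k : ℕ) (hN : N ≠ 0) (hk : 4 ≤ k) (a : ℕ → ℤ) (f : CuspForm (G0 N) (k : ℤ))
    (ha : ∀ n, PowerSeries.coeff n (qExpansion 1 (f : ℍ → ℂ)) = (a n : ℂ)) (h1 : a 1 = 1)
    (hH : ∀ p : ℕ, p.Prime → ¬ p ∣ N → ∀ n,
      a (p * n) = a p * a n - (if p ∣ n then (p : ℤ) ^ (k - 1) * a (n / p) else 0))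
    (hinf : ∀ X₀ : ℕ, ∃ p : ℕ, X₀ < p ∧ p.Prime ∧ (p : ℤ) ∣ a p ∧ ¬ (p : ℤ) ^ 2 ∣ a p) :
    ∃ c : ℝ, 0 < c ∧ ∀ᶠ Y : ℕ in atTop, c * (Nat.primeCounting Y : ℝ) ≤
      (Set.ncard {p : ℕ | p ≤ Y ∧ p.Prime ∧ ¬ (p : ℤ) ∣ a p} : ℝ) := by
  have hind := hind_newform N k hN hk a f ha h1 hH
  have hD := dat_of N k 12 hN hk a f ha h1 hH hind
  refine density_of N k hN hk a f ha h1 hH hind (ze_I hD (fun X₀ => ?_) (fun B => ?_) ?_)
  · obtain ⟨p, h2, h3, h4, h5⟩ := hinf (max X₀ (N + 12 + 5))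
    refine ⟨p, (le_max_left _ _).trans_lt h2, h3, ?_, ?_⟩
    · rw [not_or, not_not, not_le]
      exact ⟨h4, (le_max_right _ _).trans_lt h2⟩
    · intro h6
      apply h5
      obtain ⟨e, he⟩ := h4
      have h7 : a p / p = e := by
        rw [he]
        exact Int.mul_ediv_cancel_left _ (by exact_mod_cast h3.ne_zero)
      change (p : ℤ) ∣ a p / p at h6
      rw [h7] at h6
      obtain ⟨g, hg⟩ := h6
      exact ⟨g, by rw [he, hg]; ring⟩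
  · exact H33I.hQ_of_ind hD.int hind H53D.algIndep_dl_e4 B
  · intro p _ hp hb hQ W x hx
    obtain ⟨n, hn, hn0⟩ := H22Z.zero_Ah (by norm_num) hD p hp hb hQ W x hx
    exact ⟨n, hn, fun h0 => hn0 (by rw [h0]; simp)⟩

end H6D
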