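import Pool.Agent.Lib.H6D.G1
import Pool.Agent.Lib.H80V.V7

/-!
# H6D, G2: **Theorem D**: a positive proportion of the primes is ordinary
-/

namespace H6D

open H53M H94M H36D H94D H6V PowerSeries UpperHalfPlane Filter Topology

theorem dat_mono {r v μ s : ℕ} {h : Fin r → PowerSeries ℚ} {b : ℕ → ℤ} {Exc Exc' : ℕ → Prop}
    (hE : ∀ p, Exc p → Exc' p) (hD : Dat r v μ s h b Exc) : Dat r v μ s h b Exc' where
  zero := hD.zero
  growth := hD.growth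
  den := hD.den
  int σ n p hp hE' := hD.int σ n p hp fun h1 => hE' (hE p h1)
  big p hp hE' := hD.big p hp fun h1 => hE' (hE p h1)
  mu_pos := hD.mu_pos
  fam p _ hE' := hD.fam p fun h1 => hE' (hE p h1)
  ind := hD.ind

/-- **Theorem D, case (II).** -/
theorem density_II (N k : ℕ) (hN : N ≠ 0) (hk : 4 ≤ k) (a : ℕ → ℤ) (f : CuspForm (G0 N) (k : ℤ))
    (ha : ∀ n, PowerSeries.coeff n (qExpansion 1 (f : ℍ → ℂ)) = (a n : ℂ)) (h1 : a 1 = 1)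
    (hH : ∀ p : ℕ, p.Prime → ¬ p ∣ N → ∀ n,
      a (p * n) = a p * a n - (if p ∣ n then (p : ℤ) ^ (k - 1) * a (n / p) else 0))
    (X₀ : ℕ) (hsq : ∀ p : ℕ, X₀ < p → p.Prime → (p : ℤ) ∣ a p → (p : ℤ) ^ 2 ∣ a p) :
    ∃ c : ℝ, 0 < c ∧ ∀ᶠ Y : ℕ in atTop, c * (Nat.primeCounting Y : ℝ) ≤
      (Set.ncard {p : ℕ | p ≤ Y ∧ p.Prime ∧ ¬ (p : ℤ) ∣ a p} : ℝ) := by
  classical
  have hord := inf_ord N k hN hk a f ha h1 hH
  have hind : ∀ (S : Finset (Fin 3 → ℕ)) (P : (Fin 3 → ℕ) → PowerSeries ℤ),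
      (∃ α ∈ S, P α ≠ 0) →
      ∑ α ∈ S, toQ (P α) * H36D.Hm (fun σ : Fin 3 => VV ((σ : ℕ) + 1) (hq a)) α ≠ 0 := by
    intro S P hP
    refine H18G.hind_of a (fun X₀ => ?_) 3 S P hP
    obtain ⟨l, h2, h3, _, h4⟩ := hord X₀
    exact ⟨l, h2, h3, h4⟩
  obtain ⟨M, hM⟩ : ∃ M, M = max X₀ (N + 3 + 5) := ⟨_, rfl⟩
  have hD := dat_mono (Exc' := fun p : ℕ => ¬ (p : ℤ) ∣ a p ∨ p ≤ M)
    (fun p hp => hp.imp_right fun h2 => h2.trans (by rw [hM]; exact le_max_right _ _))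
    (dat_of N k 3 hN hk a f ha h1 hH hind)
  obtain ⟨δ, hδ, X₁, h2⟩ := H80V.caseII k _ _ _ (by omega) a h1 (fun B => by
      obtain ⟨l, h3, h4, h5, h6⟩ := hord B
      exact ⟨l, h3, h4, hH l h4 h5, h6⟩) _ _ hD (by
    intro p hp hE
    rw [not_or, not_not, not_le] at hE
    have h3 : X₀ < p := lt_of_le_of_lt (by rw [hM]; exact le_max_left _ _) hE.2
    obtain ⟨e, he⟩ := hsq p h3 hp hE.1
    refine ⟨e, ?_⟩
    rw [he, pow_two, mul_assoc]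
    exact Int.mul_ediv_cancel_left _ (by exact_mod_cast hp.ne_zero))
  refine dens_of_scale (fun p => ¬ (p : ℤ) ∣ a p) M 1 le_rfl (δ / 2) (by positivity)
    (max X₁ 1) fun X hX => ?_
  have hX1 : X₁ ≤ X := (le_max_left _ _).trans hX
  have hX2 : 1 ≤ X := (le_max_right _ _).trans hX
  have hX3 : (1 : ℝ) ≤ X := by exact_mod_cast hX2
  have h3 := h2 X hX1
  have h4 : (((Finset.range (X + 1)).filter
      (fun p : ℕ => p.Prime ∧ (¬ (p : ℤ) ∣ a p ∨ p ≤ M))).card : ℝ) ≤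
      (((Finset.range (1 * X + 2)).filter
        (fun p : ℕ => p.Prime ∧ (¬ (p : ℤ) ∣ a p ∨ p ≤ M))).card : ℝ) := by
    exact_mod_cast Finset.card_le_card (Finset.filter_subset_filter _
      (Finset.range_subset_range.2 (by omega)))
  have h5 : Real.log X ≤ Real.log (((1 : ℕ) : ℝ) * X + 1) := by
    apply Real.log_le_log (by linarith)
    push_cast
    linarith
  have h6 : 0 ≤ Real.log (X : ℝ) := Real.log_nonneg hX3
  calc δ / 2 * X < δ * X := by nlinarith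
    _ ≤ _ := h3
    _ ≤ _ := mul_le_mul h4 h5 h6 (Nat.cast_nonneg _)

/-- **Theorem D.** A positive proportion of the primes is ordinary. -/
theorem density (N k : ℕ) (hN : N ≠ 0) (hk : 4 ≤ k) (a : ℕ → ℤ) (f : CuspForm (G0 N) (k : ℤ))
    (ha : ∀ n, PowerSeries.coeff n (qExpansion 1 (f : ℍ → ℂ)) = (a n : ℂ)) (h1 : a 1 = 1)
    (hH : ∀ p : ℕ, p.Prime → ¬ p ∣ N → ∀ n,
      a (p * n) = a p * a n - (if p ∣ n then (p : ℤ) ^ (k - 1) * a (n / p) else 0)) :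
    ∃ c : ℝ, 0 < c ∧ ∀ᶠ Y : ℕ in atTop, c * (Nat.primeCounting Y : ℝ) ≤
      (Set.ncard {p : ℕ | p ≤ Y ∧ p.Prime ∧ ¬ (p : ℤ) ∣ a p} : ℝ) := by
  by_cases hinf : ∀ X₀ : ℕ, ∃ p : ℕ, X₀ < p ∧ p.Prime ∧ (p : ℤ) ∣ a p ∧ ¬ (p : ℤ) ^ 2 ∣ a p
  · exact density_I N k hN hk a f ha h1 hH hinf
  · push Not at hinf
    obtain ⟨X₀, h2⟩ := hinf
    exact density_II N k hN hk a f ha h1 hH X₀ fun p h3 h4 h5 => h2 p h3 h4 h5

end H6D
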