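import Pool.Agent.Lib.H6D.Defs

/-!
# H6D, chunk T1 (S/M): the transformation law of `f(dz)`

PROOF. `ad_growth`: `|ad a d n| ≤ |a (n/d)| ≤ |C| ((n/d : ℕ) + 1)^K ≤ |C| (n+1)^K`.
`karr_G'`: this is the private lemma `K1_G` of Lib/H6V/K1.lean (copy its proof).
`ad_trans`: with `b = ad a d` (`b 0 = a 0 = 0`), `ev (fser b) z = ev (fser a) (d z)` for all `z` (`ev` is a `tsum` over `n`; the terms with `d ∤ n`
vanish, reindex by the injective map `m ↦ d m`: `Function.Injective.tsum_eq` or `tsum_eq_tsum_of_ne_zero_bij`; it is an identity of `tsum`s, no convergence is needed).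
For `A D - B C = 1`, `M ∣ C`, `M ∣ D - 1`, `N d ∣ M`: `C = d C'`, `N ∣ C'`, `d (A z + B)/(C z + D) = (A (d z) + d B)/(C' (d z) + D)`,
`A D - (d B) C' = 1`; apply `hF.trans A (d*B) C' D` at `d z` (`im (d z) > 0`), `C' (d z) + D = C z + D`.
`DTransI1` is for `ι = Fin 1`: the product over `Fin 1` is the factor at `0` (see `karr_G` in Lib/H6V/K1.lean).
-/

namespace H6D

open H53M H94M H53N H36H H6V PowerSeries

theorem ad_growth (a : ℕ → ℤ) (d : ℕ)
    (h : ∃ (C : ℝ) (K : ℕ), ∀ n, |(a n : ℝ)| ≤ C * ((n : ℝ) + 1) ^ K) :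
    ∃ (C : ℝ) (K : ℕ), ∀ n, |(ad a d n : ℝ)| ≤ C * ((n : ℝ) + 1) ^ K := by
  obtain ⟨C, K, hC⟩ := h
  have hC0 : 0 ≤ C := by
    have := (abs_nonneg _).trans (hC 0)
    simpa using this
  refine ⟨C, K, fun n => ?_⟩
  unfold ad
  split_ifs with hd
  · refine (hC (n / d)).trans (mul_le_mul_of_nonneg_left ?_ hC0)
    refine pow_le_pow_left₀ (by positivity) ?_ _
    have : ((n / d : ℕ) : ℝ) ≤ (n : ℝ) := by exact_mod_cast Nat.div_le_self n d
    linarith
  · simp only [Int.cast_zero, abs_zero]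
    positivity

theorem karr_G' (a : ℕ → ℤ) (h0 : a 0 = 0)
    (h : ∃ (C : ℝ) (K : ℕ), ∀ n, |(a n : ℝ)| ≤ C * ((n : ℝ) + 1) ^ K) (z : Fin 1 → ℂ) :
    (karr a h).G z = ev (fser a) (z 0) := by
  unfold KArr.G ev fser
  have h1 : ∀ ξ : {n : ℕ // 0 < n}, ((karr a h).c ξ : ℂ) *
      Complex.exp (2 * Real.pi * Complex.I * ∑ i, ((karr a h).nu ξ i : ℂ) * z i) =
      (fun n : ℕ => (a n : ℂ) * Complex.exp (2 * Real.pi * Complex.I * (n * z 0))) ξ := by
    intro ξ
    change (a ξ.1 : ℂ) * Complex.exp (2 * Real.pi * Complex.I *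
      ∑ i : Fin 1, (((ξ.1 : ℕ) : ℝ) : ℂ) * z i) = _
    rw [Fin.sum_univ_one, Complex.ofReal_natCast]
  rw [tsum_congr h1]
  have h2 : Function.support (fun n : ℕ =>
      (a n : ℂ) * Complex.exp (2 * Real.pi * Complex.I * (n * z 0))) ⊆ {n : ℕ | 0 < n} := by
    intro n hn
    by_contra hc
    have hn0 : n = 0 := by
      have : ¬ 0 < n := hc
      omega
    apply hn
    change (a n : ℂ) * _ = 0
    rw [hn0, h0, Int.cast_zero, zero_mul]
  have h3 := tsum_subtype_eq_of_support_subset h2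
  refine Eq.trans h3 (tsum_congr fun n => ?_)
  rw [PowerSeries.coeff_mk]

private theorem t1_zero (d : ℕ) {a : ℕ → ℤ} (h0 : a 0 = 0) : ad a d 0 = 0 := by
  unfold ad
  rw [if_pos (dvd_zero d), Nat.zero_div, h0]

private theorem t1_ev {d : ℕ} (hd : 0 < d) (a : ℕ → ℤ) (z : ℂ) :
    ev (fser (ad a d)) z = ev (fser a) (d * z) := by
  unfold ev fser
  simp only [coeff_mk]
  have hinj : Function.Injective (fun n : ℕ => d * n) := fun x y h =>
    Nat.eq_of_mul_eq_mul_left hd h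
  rw [← hinj.tsum_eq]
  · refine tsum_congr fun n => ?_
    unfold ad
    rw [if_pos (Dvd.intro n rfl), Nat.mul_div_cancel_left _ hd]
    congr 2
    push_cast
    ring
  · intro n hn
    by_contra hc
    apply hn
    have hdn : ¬ d ∣ n := by
      rintro ⟨m, rfl⟩
      exact hc ⟨m, rfl⟩
    change ((ad a d n : ℤ) : ℂ) * _ = 0
    unfold ad
    rw [if_neg hdn, Int.cast_zero, zero_mul]

theorem ad_trans {N k : ℕ} {a : ℕ → ℤ} (hF : Frm N k a) (d M : ℕ) (hd : 1 ≤ d)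
    (hM : N * d ∣ M) : DTransI1 M k (karr (ad a d) (ad_growth a d hF.growth)).G := by
  intro A B C D hdet hC hD z hz
  have hd0 : 0 < d := hd
  rw [karr_G' _ (t1_zero d hF.zero), karr_G' _ (t1_zero d hF.zero), Fin.prod_univ_one,
    t1_ev hd0, t1_ev hd0]
  obtain ⟨t, rfl⟩ := hM
  obtain ⟨c, rfl⟩ := hC
  have hdc : (d : ℂ) ≠ 0 := by
    have := hd0.ne'
    exact_mod_cast this
  have h1 := hF.trans A (B * d) ((N * t : ℕ) * c) D (by
    rw [← hdet]
    push_cast
    ring) (by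
      push_cast
      exact ⟨t * c, by ring⟩) ((Int.natCast_dvd_natCast.2
        ((Nat.dvd_mul_right N d).trans (Nat.dvd_mul_right (N * d) t))).trans hD)
    ((d : ℂ) * z 0) (by
      have h2 := hz 0
      have h3 : ((d : ℂ) * z 0).im = d * (z 0).im := by
        rw [Complex.mul_im, Complex.natCast_re, Complex.natCast_im]
        ring
      rw [h3]
      have : (0 : ℝ) < d := by exact_mod_cast hd0
      positivity)
  have e1 : (d : ℂ) * (((A : ℂ) * z 0 + B) / ((((N * d * t : ℕ) : ℤ) * c : ℤ) * z 0 + D)) =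
      ((A : ℂ) * (d * z 0) + ((B * d : ℤ) : ℂ)) /
        (((((N * t : ℕ) : ℤ) * c : ℤ) : ℂ) * (d * z 0) + D) := by
    rw [← mul_div_assoc]
    congr 1
    · push_cast
      ring
    · push_cast
      ring
  have e2 : ((((N * d * t : ℕ) : ℤ) * c : ℤ) : ℂ) * z 0 + D =
      (((((N * t : ℕ) : ℤ) * c : ℤ) : ℂ) * (d * z 0) + D) := by
    push_cast
    ring
  rw [e1, h1, e2]

end H6D
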