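import Pool.Agent.Lib.H6D.Defs

/-!
# H6D, chunk T3 (S): growth and denominators of `h(q^d)`

PROOF. Copy the private lemmas `C1_den_dvd, C1_coeff, C1_growth, C1_hden, C1_hint` of Lib/H6V/C1.lean for `hq a`; the coefficient `n` of
`VV d (hq a)` is `0` if `d ∤ n`, else the coefficient `n/d ≤ n` of `hq a`.
-/

namespace H6D

open H53M H94M H6V PowerSeries

private theorem T3_den_dvd (a : ℕ → ℤ) (n : ℕ) : ((a n : ℚ) / (n : ℚ)).den ∣ n ∨ n = 0 := by
  rcases Nat.eq_zero_or_pos n with h | h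
  · exact Or.inr h
  · left
    have h4 := Rat.den_dvd (a n) (n : ℤ)
    rw [Rat.divInt_eq_div] at h4
    push_cast at h4
    exact_mod_cast h4

private theorem T3_coeff (a : ℕ → ℤ) (n : ℕ) : coeff n (hq a) = (a n : ℚ) / (n : ℚ) := by
  unfold hq
  rw [coeff_mk]

private theorem T3_growth {a : ℕ → ℤ} {C : ℝ} {K : ℕ}
    (h : ∀ n, |(a n : ℝ)| ≤ C * ((n : ℝ) + 1) ^ K) (n : ℕ) :
    |((coeff n (hq a) : ℚ) : ℝ)| ≤ C * ((n : ℝ) + 1) ^ K := by
  rw [T3_coeff]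
  push_cast
  rcases Nat.eq_zero_or_pos n with h0 | h0
  · subst h0
    have h1 := h 0
    have h2 : (0 : ℝ) ≤ |(a 0 : ℝ)| := abs_nonneg _
    simp only [Nat.cast_zero, div_zero, abs_zero]
    simp only [Nat.cast_zero] at h1
    linarith
  · refine le_trans ?_ (h n)
    rw [abs_div]
    refine div_le_self (abs_nonneg _) ?_
    have h1 : (1 : ℝ) ≤ (n : ℝ) := by exact_mod_cast h0
    rw [abs_of_nonneg (by linarith)]
    exact h1

private theorem T3_hden (a : ℕ → ℤ) (n p : ℕ) (_hp : p.Prime) :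
    p ^ padicValNat p (coeff n (hq a)).den ≤ n + 1 := by
  rw [T3_coeff]
  rcases T3_den_dvd a n with h | h
  · rcases Nat.eq_zero_or_pos n with h0 | h0
    · subst h0
      simp
    · exact (Nat.le_of_dvd h0 (pow_padicValNat_dvd.trans h)).trans (Nat.le_succ n)
  · subst h
    simp

private theorem T3_hint (a : ℕ → ℤ) (p : ℕ) (hp : p.Prime)
    (h1 : ∀ n r : ℕ, p ^ r ∣ n → (p : ℤ) ^ r ∣ a n) (n : ℕ) :
    ¬ p ∣ (coeff n (hq a)).den := by
  rw [T3_coeff]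
  rcases Nat.eq_zero_or_pos n with h0 | h0
  · subst h0
    simp only [Nat.cast_zero, div_zero]
    intro h
    exact hp.one_lt.ne' (Nat.dvd_one.1 h)
  · obtain ⟨r, m, hm, hn⟩ := Nat.exists_eq_pow_mul_and_not_dvd h0.ne' p hp.ne_one
    obtain ⟨b, hb⟩ := h1 n r ⟨m, hn⟩
    have hp0 : (p : ℚ) ^ r ≠ 0 := pow_ne_zero _ (by exact_mod_cast hp.ne_zero)
    have e : (a n : ℚ) / (n : ℚ) = (b : ℚ) / (m : ℚ) := by
      rw [hb, hn]
      push_cast
      rw [mul_div_mul_left _ _ hp0]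
    rw [e]
    intro h
    apply hm
    have h4 := Rat.den_dvd b (m : ℤ)
    rw [Rat.divInt_eq_div] at h4
    push_cast at h4
    have h5 : ((b : ℚ) / (m : ℚ)).den ∣ m := by exact_mod_cast h4
    exact h.trans h5

private theorem T3_VV (a : ℕ → ℤ) (d n : ℕ) :
    coeff n (VV d (hq a)) = if d ∣ n then coeff (n / d) (hq a) else 0 := by
  unfold VV
  rw [coeff_mk]

theorem vv_zero (a : ℕ → ℤ) (d : ℕ) : coeff 0 (VV d (hq a)) = 0 := by
  rw [T3_VV, Nat.zero_div, T3_coeff]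
  simp

theorem vv_growth {a : ℕ → ℤ} {C : ℝ} {K : ℕ} (h : ∀ n, |(a n : ℝ)| ≤ C * ((n : ℝ) + 1) ^ K)
    (d n : ℕ) : |((coeff n (VV d (hq a)) : ℚ) : ℝ)| ≤ C * ((n : ℝ) + 1) ^ K := by
  have hC : 0 ≤ C := by
    have h1 := h 0
    have h2 : (0 : ℝ) ≤ |(a 0 : ℝ)| := abs_nonneg _
    simp only [Nat.cast_zero, zero_add, one_pow, mul_one] at h1
    linarith
  rw [T3_VV]
  split_ifs with hd
  · refine (T3_growth h (n / d)).trans (mul_le_mul_of_nonneg_left ?_ hC)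
    have h3 : ((n / d : ℕ) : ℝ) ≤ (n : ℝ) := by exact_mod_cast Nat.div_le_self n d
    have h4 : (0 : ℝ) ≤ ((n / d : ℕ) : ℝ) := Nat.cast_nonneg _
    exact pow_le_pow_left₀ (by linarith) (by linarith) K
  · simp only [Rat.cast_zero, abs_zero]
    positivity

theorem vv_den (a : ℕ → ℤ) (d n p : ℕ) (hp : p.Prime) :
    p ^ padicValNat p (coeff n (VV d (hq a))).den ≤ n + 1 := by
  rw [T3_VV]
  split_ifs with hd
  · exact (T3_hden a (n / d) p hp).trans (Nat.succ_le_succ (Nat.div_le_self n d))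
  · simp

theorem vv_int (a : ℕ → ℤ) (p : ℕ) (hp : p.Prime)
    (h1 : ∀ n r : ℕ, p ^ r ∣ n → (p : ℤ) ^ r ∣ a n) (d n : ℕ) :
    ¬ p ∣ (coeff n (VV d (hq a))).den := by
  rw [T3_VV]
  split_ifs with hd
  · exact T3_hint a p hp h1 (n / d)
  · intro h
    exact hp.one_lt.ne' (Nat.dvd_one.1 h)

end H6D
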